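import Pool.Agent.W558.WA.Stms

/-!
Part AS-RI: the invariants do not depend on the choice of the representative.
-/

set_option autoImplicit false
set_option linter.unusedVariables false
set_option linter.unusedSectionVars false

universe u

open Polynomial AlgebraicGeometry CategoryTheory Pool.Agent.H920R2 TensorProduct

namespace Pool.Agent.W335.WA

open Pool.Agent.W558

section

variable {k E : Type u} [Field k] [Field E] [Algebra k E] {O : Subalgebra k E}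

lemma der_pow (θ : Derivation k E E) {x w : E} (hw : θ x = w * x) (n : ℕ) :
    θ (x ^ n) = n * w * x ^ n := by
  induction n with
  | zero => simp
  | succ n ih =>
    rw [pow_succ, Derivation.leibniz, ih, hw]
    simp only [smul_eq_mul]
    push_cast
    ring

lemma mon_log (θ : Derivation k E E) {x y : E} {N M : ℕ} (hx : ∃ w ∈ O, θ x = w * x)
    (hy : M = 0 ∨ ∃ w ∈ O, θ y = w * y) :
    ∃ g ∈ O, θ (x ^ N * y ^ M) = g * (x ^ N * y ^ M) := by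
  obtain ⟨w, hw, hxw⟩ := hx
  rcases hy with rfl | ⟨w', hw', hyw⟩
  · refine ⟨N * w, O.mul_mem (natCast_mem O N) hw, ?_⟩
    rw [pow_zero, mul_one, der_pow θ hxw]
  · refine ⟨N * w + M * w', O.add_mem (O.mul_mem (natCast_mem O N) hw)
      (O.mul_mem (natCast_mem O M) hw'), ?_⟩
    rw [Derivation.leibniz, der_pow θ hxw, der_pow θ hyw]
    simp only [smul_eq_mul]
    ring

lemma key {θ : Derivation k E E} (hθ : ∀ a ∈ O, θ a ∈ O) {x y : E} {N M : ℕ}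
    (hx : ∃ w ∈ O, θ x = w * x) (hy : M = 0 ∨ ∃ w ∈ O, θ y = w * y) {b : E}
    (hb : b * (x ^ N * y ^ M) ∈ O) : θ b * (x ^ N * y ^ M) ∈ O := by
  obtain ⟨g, hg, hgX⟩ := mon_log (O := O) θ (N := N) hx hy
  have h1 := hθ _ hb
  rw [Derivation.leibniz, hgX] at h1
  simp only [smul_eq_mul] at h1
  have h2 : θ b * (x ^ N * y ^ M) =
      (b * (g * (x ^ N * y ^ M)) + x ^ N * y ^ M * θ b) - g * (b * (x ^ N * y ^ M)) := by ring
  rw [h2]
  exact O.sub_mem h1 (O.mul_mem hg hb)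

lemma der_wp (p : ℕ) [CharP E p] (θ : Derivation k E E) (b : E) :
    θ (b ^ p - b) = - θ b := by
  rw [map_sub, Derivation.leibniz_pow]
  have : (p : E) = 0 := CharP.cast_eq_zero E p
  rw [nsmul_eq_mul, this, zero_mul, zero_sub]

lemma div_lt_of_pos {p N : ℕ} [hp : Fact p.Prime] (hN : 1 ≤ N) : N / p < N :=
  Nat.div_lt_self hN hp.out.one_lt

/-- multiples of the derivative of `b` -/
lemma small {p : ℕ} [hp : Fact p.Prime] {θ : Derivation k E E} (hθ : ∀ a ∈ O, θ a ∈ O) {x y : E}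
    (hxO : x ∈ O) (hyO : y ∈ O) {N M : ℕ} (hN : 1 ≤ N)
    (hx : ∃ w ∈ O, θ x = w * x) (hy : M = 0 ∨ ∃ w ∈ O, θ y = w * y) {b : E}
    (hb : b * (x ^ (N / p) * y ^ (M / p)) ∈ O) : ∃ γ ∈ O, θ b * (x ^ N * y ^ M) = γ * x := by
  have h1 : θ b * (x ^ (N / p) * y ^ (M / p)) ∈ O := by
    refine key hθ hx ?_ hb
    rcases hy with rfl | hy
    · exact Or.inl (Nat.zero_div p)
    · exact Or.inr hy
  have h2 := div_lt_of_pos (p := p) hN
  have h3 : M / p ≤ M := Nat.div_le_self M p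
  refine ⟨θ b * (x ^ (N / p) * y ^ (M / p)) * (x ^ (N - N / p - 1) * y ^ (M - M / p)),
    O.mul_mem h1 (O.mul_mem (O.pow_mem hxO _) (O.pow_mem hyO _)), ?_⟩
  have e1 : x ^ N = x ^ (N / p) * x ^ (N - N / p - 1) * x := by
    rw [← pow_add, ← pow_succ]
    congr 1
    omega
  have e2 : y ^ M = y ^ (M / p) * y ^ (M - M / p) := by
    rw [← pow_add]
    congr 1
    omega
  rw [e1, e2]
  ring

lemma ox_add {x y : E} {j : ℕ} {z γ : E} (hγ : γ ∈ O) (h : Ox O x y j z) :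
    Ox O x y j (z + γ * x) := by
  obtain ⟨α, hα, β, hβ, rfl⟩ := h
  exact ⟨α + γ, O.add_mem hα hγ, β, hβ, by ring⟩

theorem G1 (p : ℕ) [Fact p.Prime] [CharP E p] {bd : Set E} {x y : E} (hxO : x ∈ O)
    (hyO : y ∈ O) {N M c : ℕ} (hN : 1 ≤ N)
    (hx : ∀ θ ∈ Th O bd, ∃ w ∈ O, θ x = w * x)
    (hy : M = 0 ∨ ∀ θ ∈ Th O bd, ∃ w ∈ O, θ y = w * y)
    (hwb : ∀ (b : E) (N M : ℕ), (b ^ p - b) * (x ^ N * y ^ M) ∈ O →
      b * (x ^ (N / p) * y ^ (M / p)) ∈ O) {F b : E}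
    (h1 : F * (x ^ N * y ^ M) ∈ O) (h2 : (F - (b ^ p - b)) * (x ^ N * y ^ M) ∈ O)
    (h : Rs O bd x y (x ^ N * y ^ M) F c) :
    Rs O bd x y (x ^ N * y ^ M) (F - (b ^ p - b)) c := by
  have hb : b * (x ^ (N / p) * y ^ (M / p)) ∈ O := by
    apply hwb
    have : (b ^ p - b) * (x ^ N * y ^ M) =
        F * (x ^ N * y ^ M) - (F - (b ^ p - b)) * (x ^ N * y ^ M) := by ring
    rw [this]
    exact O.sub_mem h1 h2
  have hs : ∀ θ ∈ Th O bd, ∃ γ ∈ O, θ b * (x ^ N * y ^ M) = γ * x := fun θ hθ =>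
    small hθ.1 hxO hyO hN (hx θ hθ) (hy.imp id fun h => h θ hθ) hb
  have he : ∀ θ : Derivation k E E, θ (F - (b ^ p - b)) * (x ^ N * y ^ M) =
      θ F * (x ^ N * y ^ M) + θ b * (x ^ N * y ^ M) := by
    intro θ
    rw [map_sub, der_wp]
    ring
  refine ⟨fun θ hθ => ?_, ?_⟩
  · obtain ⟨γ, hγ, h3⟩ := hs θ hθ
    rw [he, h3]
    exact ox_add hγ (h.1 θ hθ)
  · obtain ⟨θ, hθ, h4⟩ := h.2
    refine ⟨θ, hθ, fun h5 => h4 ?_⟩
    obtain ⟨γ, hγ, h3⟩ := hs θ hθ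
    rw [he, h3] at h5
    have h6 := ox_add (O.neg_mem hγ) h5
    have h7 : θ F * (x ^ N * y ^ M) + γ * x + -γ * x = θ F * (x ^ N * y ^ M) := by ring
    rwa [h7] at h6

theorem G2 (p : ℕ) [Fact p.Prime] [CharP E p] {bd : Set E} {x y : E} (hxO : x ∈ O)
    (hyO : y ∈ O) (hx0 : x ≠ 0) (hreg : ∀ b ∈ O, ∀ c ∈ O, x * b = y * c → ∃ d ∈ O, c = x * d)
    {N M N' M' c : ℕ}
    (hx : ∀ θ ∈ Th O bd, ∃ w ∈ O, θ x = w * x)
    (hy : (M = 0 ∧ M' = 0) ∨ ∀ θ ∈ Th O bd, ∃ w ∈ O, θ y = w * y)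
    (hwb : ∀ (b : E) (N M : ℕ), (b ^ p - b) * (x ^ N * y ^ M) ∈ O →
      b * (x ^ (N / p) * y ^ (M / p)) ∈ O) {F b : E}
    (h1 : F * (x ^ N * y ^ M) ∈ O) (h2 : (F - (b ^ p - b)) * (x ^ N' * y ^ M') ∈ O)
    (h : 1 ≤ N → ∃ θ ∈ Th O bd, ¬ Ox O x y (c + 1) (θ F * (x ^ N * y ^ M))) :
    N ≤ N' := by
  by_contra hcon
  push Not at hcon
  have hN : 1 ≤ N := by omega
  obtain ⟨θ, hθ, h4⟩ := h hN
  set K := max M M' with hK
  have hyK : K = 0 ∨ ∃ w ∈ O, θ y = w * y := by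
    rcases hy with ⟨h5, h6⟩ | h5
    · left
      rw [hK, h5, h6, max_self]
    · exact Or.inr (h5 θ hθ)
  have hyM : M = 0 ∨ ∃ w ∈ O, θ y = w * y := by
    rcases hy with ⟨h5, h6⟩ | h5
    · exact Or.inl h5
    · exact Or.inr (h5 θ hθ)
  have hyM' : M' = 0 ∨ ∃ w ∈ O, θ y = w * y := by
    rcases hy with ⟨h5, h6⟩ | h5
    · exact Or.inl h6
    · exact Or.inr (h5 θ hθ)
  have eM : y ^ K = y ^ (K - M) * y ^ M := by
    rw [← pow_add]
    congr 1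
    omega
  have eM' : y ^ K = y ^ (K - M') * y ^ M' := by
    rw [← pow_add]
    congr 1
    omega
  have eN' : x ^ N = x ^ (N - N' - 1) * x * x ^ N' := by
    rw [← pow_succ, ← pow_add]
    congr 1
    omega
  have hb : b * (x ^ (N / p) * y ^ (K / p)) ∈ O := by
    apply hwb
    have : (b ^ p - b) * (x ^ N * y ^ K) =
        F * (x ^ N * y ^ M) * y ^ (K - M) -
          (F - (b ^ p - b)) * (x ^ N' * y ^ M') * (x ^ (N - N' - 1) * x * y ^ (K - M')) := by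
      have e3 : F * (x ^ N * y ^ M) * y ^ (K - M) = F * (x ^ N * y ^ K) := by
        rw [eM]
        ring
      have e4 : (F - (b ^ p - b)) * (x ^ N' * y ^ M') * (x ^ (N - N' - 1) * x * y ^ (K - M')) =
          (F - (b ^ p - b)) * (x ^ N * y ^ K) := by
        rw [eM', eN']
        ring
      rw [e3, e4]
      ring
    rw [this]
    exact O.sub_mem (O.mul_mem h1 (O.pow_mem hyO _)) (O.mul_mem h2
      (O.mul_mem (O.mul_mem (O.pow_mem hxO _) hxO) (O.pow_mem hyO _)))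
  obtain ⟨γ, hγ, h5⟩ := small (p := p) hθ.1 hxO hyO hN (hx θ hθ) hyK hb
  have h6 : θ (F - (b ^ p - b)) * (x ^ N' * y ^ M') ∈ O := key hθ.1 (hx θ hθ) hyM' h2
  have h7 : θ F * (x ^ N * y ^ M) ∈ O := key hθ.1 (hx θ hθ) hyM h1
  have h8 : θ F = θ (F - (b ^ p - b)) - θ b := by
    rw [map_sub, der_wp]
    ring
  have h9 : y ^ (K - M) * (θ F * (x ^ N * y ^ M)) =
      x * (θ (F - (b ^ p - b)) * (x ^ N' * y ^ M') * (x ^ (N - N' - 1) * y ^ (K - M')) - γ) := by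
    have e3 : y ^ (K - M) * (θ F * (x ^ N * y ^ M)) = θ F * (x ^ N * y ^ K) := by
      rw [eM]
      ring
    have e4 : x * (θ (F - (b ^ p - b)) * (x ^ N' * y ^ M') * (x ^ (N - N' - 1) * y ^ (K - M'))) =
        θ (F - (b ^ p - b)) * (x ^ N * y ^ K) := by
      rw [eM', eN']
      ring
    rw [mul_sub, e3, e4, mul_comm x γ, ← h5, h8]
    ring
  have hdiv : ∀ (n : ℕ) (c : E), c ∈ O → (∃ d ∈ O, y ^ n * c = x * d) → ∃ d ∈ O, c = x * d := by
    intro n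
    induction n with
    | zero =>
      rintro c hc ⟨d, hd, h⟩
      exact ⟨d, hd, by rw [← h]; ring⟩
    | succ n ih =>
      rintro c hc ⟨d, hd, h⟩
      apply ih c hc
      obtain ⟨d', hd', h'⟩ := hreg d hd (y ^ n * c) (O.mul_mem (O.pow_mem hyO _) hc)
        (by rw [← h, pow_succ]; ring)
      exact ⟨d', hd', h'⟩
  obtain ⟨δ, hδ, h10⟩ := hdiv (K - M) _ h7 ⟨_, O.sub_mem (O.mul_mem h6
    (O.mul_mem (O.pow_mem hxO _) (O.pow_mem hyO _))) hγ, h9⟩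
  exact h4 ⟨δ, hδ, 0, O.zero_mem, by rw [h10]; ring⟩

end

theorem main (hwb : WA_wb.{u}) : WA_ri.{u} := by
  intro p hp k E _ _ _ _ _ htr O x y f hPt hPar
  have : CharP E p := charP_of_injective_algebraMap (algebraMap k E).injective p
  have hxO : x ∈ O := hPar.pu.1
  have hyO : y ∈ O := hPar.pv.1
  have hself : ∀ z : E, z ∈ uo O z := fun z =>
    ⟨1, O.one_mem, one_ne_zero, by rw [inv_one]; exact O.one_mem, by rw [one_mul]⟩
  have hw1 : ∀ (b : E) (N M : ℕ), (b ^ p - b) * (x ^ N * y ^ M) ∈ O →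
      b * (x ^ (N / p) * y ^ (M / p)) ∈ O := fun b N M => hwb p k E htr O x y hPt hPar b N M
  have hw2 : ∀ (b : E) (N M : ℕ), (b ^ p - b) * (y ^ N * x ^ M) ∈ O →
      b * (y ^ (N / p) * x ^ (M / p)) ∈ O := by
    intro b N M h
    rw [mul_comm (y ^ N)] at h
    rw [mul_comm (y ^ (N / p))]
    exact hw1 b M N h
  have hreg2 : ∀ b ∈ O, ∀ c ∈ O, y * b = x * c → ∃ d ∈ O, c = y * d := by
    intro b hb c hc h
    obtain ⟨d, hd, h1⟩ := hPar.reg c hc b hb h.symm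
    refine ⟨d, hd, ?_⟩
    have h2 : x * c = x * (y * d) := by
      rw [← h, h1]
      ring
    exact mul_left_cancel₀ hPar.u0 h2
  have hx1 : ∀ θ ∈ Th O (uo O x), ∃ w ∈ O, θ x = w * x := fun θ hθ => hθ.2 x (hself x)
  have hx2 : ∀ θ ∈ Th O (uo O x ∪ uo O y), ∃ w ∈ O, θ x = w * x :=
    fun θ hθ => hθ.2 x (Or.inl (hself x))
  have hy2 : ∀ θ ∈ Th O (uo O x ∪ uo O y), ∃ w ∈ O, θ y = w * y :=
    fun θ hθ => hθ.2 y (Or.inr (hself y))
  have hwp : ∀ a a' : E, f - (a' ^ p - a') =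
      (f - (a ^ p - a)) - ((a' - a) ^ p - (a' - a)) := by
    intro a a'
    rw [sub_pow_char]
    ring
  refine ⟨?_, ?_, ?_, ?_⟩
  · rintro N c ⟨a, h1, h2⟩ a' h3 hN
    have h4 := h2 hN
    rw [← mul_one (x ^ N), ← pow_zero y] at h1 h3 h4 ⊢
    rw [hwp a a'] at h3 ⊢
    exact G1 p hxO hyO hN hx1 (Or.inl rfl) hw1 h1 h3 h4
  · rintro N M c d ⟨a, h1, h2, h2'⟩ a' h3
    rw [hwp a a'] at h3 ⊢
    constructor
    · intro hN
      exact G1 p hxO hyO hN hx2 (Or.inr hy2) hw1 h1 h3 (h2 hN)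
    · intro hM
      have h4 := h2' hM
      rw [mul_comm (x ^ N)] at h1 h3 h4 ⊢
      exact G1 p hyO hxO hM hy2 (Or.inr hx2) hw2 h1 h3 h4
  · rintro N c ⟨a, h1, h2⟩ a' N' h3
    have h4 : 1 ≤ N → ∃ θ ∈ Th O (uo O x), ¬ Ox O x y (c + 1)
        (θ (f - (a ^ p - a)) * (x ^ N * y ^ 0)) := by
      intro hN
      have h5 := (h2 hN).2
      rwa [← mul_one (x ^ N), ← pow_zero y] at h5
    rw [← mul_one (x ^ N), ← pow_zero y] at h1
    rw [← mul_one (x ^ N'), ← pow_zero y, hwp a a'] at h3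
    exact G2 p hxO hyO hPar.u0 hPar.reg hx1 (Or.inl ⟨rfl, rfl⟩) hw1 h1 h3 h4
  · rintro N M c d ⟨a, h1, h2, h2'⟩ a' N' M' h3
    rw [hwp a a'] at h3
    constructor
    · exact G2 p hxO hyO hPar.u0 hPar.reg hx2 (Or.inr hy2) hw1 h1 h3 fun hN => (h2 hN).2
    · have h4 : 1 ≤ M → ∃ θ ∈ Th O (uo O x ∪ uo O y), ¬ Ox O y x (d + 1)
          (θ (f - (a ^ p - a)) * (y ^ M * x ^ N)) := by
        intro hM
        have h5 := (h2' hM).2
        rwa [mul_comm (x ^ N)] at h5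
      rw [mul_comm (x ^ N)] at h1
      rw [mul_comm (x ^ N')] at h3
      exact G2 p hyO hxO hPar.v0 hreg2 hy2 (Or.inr hx2) hw2 h1 h3 h4

end Pool.Agent.W335.WA
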